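import Pool.Agent.Y798.FC.Stm2

/-! Imaginary parts of averages vanish (FC-IM). -/

set_option autoImplicit false

namespace Pool.Agent.Y681.FC

open Complex Filter Topology NumberField IsDedekindDomain
  Pool.Agent.W540.BE Pool.Agent.TH553.RS Pool.Agent.TH553.ST Pool.Agent.H341R2
  Pool.Agent.Y798.JL Pool.Agent.Y798.FC

/-- the logarithmic derivative near a zero or a pole, along the horizontal ray -/
theorem ld_local {g : ℂ → ℂ} {s0 z : ℂ} {m : ℤ} (hz : z ≠ s0) (hg : DifferentiableAt ℂ g z)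
    (hgz : g z ≠ 0) {L : ℂ → ℂ} (hL : L =ᶠ[𝓝 z] fun w => (w - s0) ^ m * g w) :
    deriv L z / L z = m / (z - s0) + deriv g z / g z := by
  have hne : z - s0 ≠ 0 := sub_ne_zero.2 hz
  have h1 : deriv L z / L z = logDeriv (fun w => (w - s0) ^ m * g w) z := by
    rw [logDeriv_apply, hL.deriv_eq, hL.eq_of_nhds]
  have hd : DifferentiableAt ℂ (fun w : ℂ => w - s0) z := by fun_prop
  rw [h1, logDeriv_mul (f := fun w => (w - s0) ^ m) (g := g) z (zpow_ne_zero _ hne) hgz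
    (hd.zpow (Or.inl hne)) hg, logDeriv_fun_zpow hd, logDeriv_apply, logDeriv_apply]
  have h2 : deriv (fun w : ℂ => w - s0) z = 1 := by
    simp
  rw [h2]
  congr 1
  field_simp

/-- a function on the ray with bounded derivative is bounded near the end of the ray -/
theorem bdd_ray {f f' : ℝ → ℝ} {C δ : ℝ} (hδ : 0 < δ)
    (hf : ∀ x ∈ Set.Ioc 0 δ, HasDerivAt f (f' x) x) (hb : ∀ x ∈ Set.Ioc 0 δ, |f' x| ≤ C) :
    ∃ B : ℝ, ∀ x ∈ Set.Ioc 0 δ, |f x| ≤ B := by
  refine ⟨|f δ| + C * δ, fun x hx => ?_⟩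
  have hδm : δ ∈ Set.Ioc 0 δ := ⟨hδ, le_rfl⟩
  have h1 := Convex.norm_image_sub_le_of_norm_hasDerivWithin_le (f := f) (f' := f') (C := C)
    (s := Set.Ioc 0 δ) (x := δ) (y := x) (fun y hy => (hf y hy).hasDerivWithinAt)
    (fun y hy => by rw [Real.norm_eq_abs]; exact hb y hy) (convex_Ioc 0 δ) hδm hx
  have hC : 0 ≤ C := (abs_nonneg _).trans (hb δ hδm)
  rw [Real.norm_eq_abs, Real.norm_eq_abs] at h1
  have h2 : |x - δ| ≤ δ := by
    rw [abs_le]
    constructor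
    · linarith [hx.1]
    · linarith [hx.2]
  have h3 : |f x| ≤ |f δ| + |f x - f δ| := by
    have := abs_add_le (f δ) (f x - f δ)
    simpa using this
  have h4 : C * |x - δ| ≤ C * δ := mul_le_mul_of_nonneg_left h2 hC
  linarith

section

variable {K : Type} [Field K] [NumberField K]

theorem EP_im {g : HeightOneSpectrum (𝓞 K) → ℂ} {B : ℝ} (hg : ∀ v, ‖g v‖ ≤ B) (τ : ℝ) {ε : ℝ}
    (hε : 0 < ε) :
    EP (nm K) ε (fun v => (g v * ((nm K v : ℕ) : ℂ) ^ (-(τ * I : ℂ))).im) =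
      (LSeries (nf g) (1 + τ * I + ε)).im := by
  have hre : 1 < (1 + τ * I + ε : ℂ).re := by simp [hε]
  rw [← tsum_eq_LSeries hg hre, Complex.im_tsum (summable_nm hg hre), EP]
  refine tsum_congr fun v => ?_
  have hv0 : (0 : ℝ) ≤ nm K v := by positivity
  have hvc : ((nm K v : ℕ) : ℂ) ≠ 0 := by
    have := two_le_nm v
    exact_mod_cast (by omega : nm K v ≠ 0)
  have h2 : ((nm K v : ℕ) : ℂ) ^ (-(1 + τ * I + ε : ℂ)) = ((nm K v : ℕ) : ℂ) ^ (-(τ * I : ℂ)) *
      (((nm K v : ℝ) ^ (-(1 + ε)) : ℝ) : ℂ) := by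
    rw [Complex.ofReal_cpow hv0]
    push_cast
    rw [← Complex.cpow_add _ _ hvc]
    congr 1
    ring
  rw [h2, ← mul_assoc, Complex.im_mul_ofReal]

end

/-- **Imaginary parts of averages vanish.** -/
theorem t : StmIm := by
  intro K _ _ κ _ _ A hA τ Λ h1 h2
  choose α e1 e2 e3 using fun v => exists_eig (hA v)
  obtain ⟨m, hm, -⟩ := order_LU hA h1 h2
  obtain ⟨g, g1, g2, g3⟩ := (meromorphicOrderAt_eq_int_iff h1).1 hm
  set s0 : ℂ := 1 + τ * I with hs0
  set L : ℂ → ℂ := LU A with hLdef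
  have hL : ∀ s : ℂ, 1 < s.re →
      L s = ∏' v, (∏ j, (1 - α v j * ((nm K v : ℕ) : ℂ) ^ (-s)))⁻¹ := by
    intro s _
    rw [hLdef]
    unfold LU
    exact tprod_congr fun v => by rw [e3]
  set t : HeightOneSpectrum (𝓞 K) → ℂ := fun v => ∑ j, α v j with ht
  have hmem : s0 ∈ Hp := by
    have : (3 / 4 : ℝ) < s0.re := by rw [hs0]; norm_num
    exact this
  have hR : AnalyticAt ℂ (Rt α) s0 := (diff_Rt e1).analyticAt (isOpen_Hp.mem_nhds hmem)
  -- the regular part is bounded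
  have hcont : ContinuousAt (fun z => deriv (Rt α) z - deriv g z / g z) s0 :=
    hR.deriv.continuousAt.sub (g1.deriv.continuousAt.div g1.continuousAt g2)
  obtain ⟨C, hC⟩ : ∃ C : ℝ, ∀ᶠ z in 𝓝 s0, ‖deriv (Rt α) z - deriv g z / g z‖ ≤ C := by
    refine ⟨‖deriv (Rt α) s0 - deriv g s0 / g s0‖ + 1, ?_⟩
    have h3 := hcont.norm
    exact h3.eventually_le_const (lt_add_one _)
  have hgd : ∀ᶠ z in 𝓝 s0, DifferentiableAt ℂ g z :=
    g1.eventually_analyticAt.mono fun z hz => hz.differentiableAt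
  have hgn : ∀ᶠ z in 𝓝 s0, g z ≠ 0 := g1.continuousAt.eventually_ne g2
  have hall : ∀ᶠ z in 𝓝 s0, (‖deriv (Rt α) z - deriv g z / g z‖ ≤ C ∧ DifferentiableAt ℂ g z ∧
      g z ≠ 0) ∧ (1 < z.re → L =ᶠ[𝓝 z] fun w => (w - s0) ^ m * g w) := by
    rw [eventually_nhdsWithin_iff] at g3
    filter_upwards [hC, hgd, hgn, g3.eventually_nhds, h2.eventually_nhds] with z a1 a2 a3 a4 a5
    refine ⟨⟨a1, a2, a3⟩, fun hz => ?_⟩
    have hre : ∀ᶠ w in 𝓝 z, 1 < w.re :=
      (isOpen_lt continuous_const Complex.continuous_re).mem_nhds hz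
    filter_upwards [a4, a5, hre] with w b1 b2 b3
    have hne : w ≠ s0 := by
      intro h
      rw [h, hs0] at b3
      simp at b3
    have h4 := b1 hne
    rw [← b2 b3, h4, smul_eq_mul]
  have hev : ∀ᶠ ε : ℝ in 𝓝[>] 0, (‖deriv (Rt α) (s0 + ε) - deriv g (s0 + ε) / g (s0 + ε)‖ ≤ C ∧
      DifferentiableAt ℂ g (s0 + ε) ∧ g (s0 + ε) ≠ 0) ∧
      (1 < (s0 + ε : ℂ).re → L =ᶠ[𝓝 (s0 + ε)] fun w => (w - s0) ^ m * g w) :=
    (path_tendsto' s0).eventually hall
  rw [eventually_nhdsWithin_iff] at hev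
  obtain ⟨δ', hδ', hδ1⟩ := Metric.eventually_nhds_iff.1 hev
  set δ : ℝ := δ' / 2 with hδdef
  have hδ : 0 < δ := by positivity
  have hP : ∀ x ∈ Set.Ioc 0 δ, (‖deriv (Rt α) (s0 + x) - deriv g (s0 + x) / g (s0 + x)‖ ≤ C ∧
      DifferentiableAt ℂ g (s0 + x) ∧ g (s0 + x) ≠ 0) ∧
      (1 < (s0 + x : ℂ).re → L =ᶠ[𝓝 (s0 + x)] fun w => (w - s0) ^ m * g w) := by
    intro x hx
    refine hδ1 ?_ hx.1
    rw [Real.dist_eq, sub_zero, abs_of_pos hx.1]
    have := hx.2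
    rw [hδdef] at this
    linarith
  have hre : ∀ x : ℝ, 0 < x → 1 < (s0 + x : ℂ).re := by
    intro x hx
    rw [hs0]
    simp [hx]
  -- the imaginary part of the series along the ray
  have hder : ∀ x ∈ Set.Ioc 0 δ, HasDerivAt (fun x : ℝ => (LSeries (nf t) (s0 + x)).im)
      ((-S t (s0 + x)).im) x := by
    intro x hx
    have k1 := deriv_nf (sum_le e1) (hre x hx.1)
    have k2 : HasDerivAt (fun x : ℝ => s0 + (x : ℂ)) 1 x :=
      (Complex.ofRealCLM.hasDerivAt (x := x)).const_add s0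
    have k3 : HasDerivAt (fun x : ℝ => LSeries (nf t) (s0 + x)) (-S t (s0 + x)) x := by
      have k4 := HasDerivAt.comp_of_eq (h₂ := LSeries (nf t)) (h := fun x : ℝ => s0 + (x : ℂ))
        x k1 k2 rfl
      rw [mul_one] at k4
      exact k4
    exact (Complex.imCLM.hasFDerivAt (x := LSeries (nf t) (s0 + x))).comp_hasDerivAt x k3
  have hbd : ∀ x ∈ Set.Ioc 0 δ, |(-S t (s0 + x)).im| ≤ C := by
    intro x hx
    obtain ⟨⟨a1, a2, a3⟩, a4⟩ := hP x hx
    have hxne : s0 + (x : ℂ) ≠ s0 := by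
      intro h
      have : (x : ℂ) = 0 := by linear_combination h
      exact hx.1.ne' (by exact_mod_cast this)
    have k1 := (S_eq e1 hL (hre x hx.1)).2
    rw [ld_local hxne a2 a3 (a4 (hre x hx.1))] at k1
    have k2 : (-S t (s0 + x)).im =
        -(deriv (Rt α) (s0 + x) - deriv g (s0 + x) / g (s0 + x)).im := by
      rw [neg_im, ht, k1]
      have k3 : ((m : ℂ) / (s0 + x - s0)).im = 0 := by
        have : ((m : ℂ) / (s0 + x - s0)) = (((m : ℝ) / x : ℝ) : ℂ) := by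
          push_cast
          congr 1
          ring
        rw [this, ofReal_im]
      simp only [sub_im, add_im] at *
      rw [k3]
      ring
    rw [k2, abs_neg]
    exact (Complex.abs_im_le_norm _).trans a1
  obtain ⟨B, hB⟩ := bdd_ray hδ hder hbd
  -- conclusion
  have hEP : ∀ x : ℝ, 0 < x →
      qt (nm K) (fun v => ((A v).trace * ((nm K v : ℕ) : ℂ) ^ (-(τ * I : ℂ))).im) x =
        (LSeries (nf t) (s0 + x)).im / lam x := by
    intro x hx
    unfold qt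
    rw [← EP_im (sum_le e1) τ hx]
    congr 1
    unfold EP
    refine tsum_congr fun v => ?_
    beta_reduce
    rw [← e2 v]
  refine squeeze_zero_norm' (a := fun x => B / lam x) ?_ ?_
  · have hmem' : Set.Ioc 0 δ ∈ 𝓝[>] (0 : ℝ) := Ioc_mem_nhdsGT hδ
    filter_upwards [hmem', lam_tendsto.eventually_gt_atTop 0] with x hx hl
    rw [hEP x hx.1, Real.norm_eq_abs, abs_div, abs_of_pos hl]
    exact div_le_div_of_nonneg_right (hB x hx) hl.le
  · exact tendsto_const_nhds.div_atTop lam_tendsto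

end Pool.Agent.Y681.FC
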